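import Pool.Agent.Y910.F.Defs

/-!
Project FC (MP_d88658_nt, helper910), job FC-INT: the signed sum polynomial of a rational datum
is integral.
-/

open Polynomial

set_option autoImplicit false

namespace Pool.Agent.Y525.FC

open Pool.Agent.Y910.F

/-- the entries of the datum -/
noncomputable def U {E : Type} [Field E] [Algebra ℚ E] (Q : ℚ[X]) (z : E) : E[X] :=
  C (aeval z Q) * (X - C z)

lemma map_U {E E' : Type} [Field E] [Algebra ℚ E] [Field E'] [Algebra ℚ E'] (Q : ℚ[X])
    (f : E →ₐ[ℚ] E') (z : E) : (U Q z).map f.toRingHom = U Q (f z) := by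
  unfold U
  rw [Polynomial.map_mul, Polynomial.map_sub, Polynomial.map_C, Polynomial.map_C, Polynomial.map_X,
    aeval_algHom_apply]
  rfl

lemma sg_map_U (h : StSG) {E E' : Type} [Field E] [Algebra ℚ E] [Field E'] [Algebra ℚ E']
    (Q : ℚ[X]) (f : E →ₐ[ℚ] E') {d : ℕ} (z : Fin d → E) :
    (sg (List.ofFn fun i => U Q (z i))).map (mapRingHom f.toRingHom) =
      sg (List.ofFn fun i => U Q (f (z i))) := by
  rw [h.1 E[X] E'[X] (mapRingHom f.toRingHom) _, List.map_ofFn]
  congr 2
  funext i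
  simp only [Function.comp, coe_mapRingHom]
  exact map_U Q f (z i)

lemma rat_aux (h : StSG) (d : ℕ) (g : ℚ[X]) (hg : g.Separable) (hd : g.natDegree = d)
    (θ : Fin d → ℂ) (hθ : Function.Injective θ) (h0 : ∀ i, aeval (θ i) g = 0) (Q : ℚ[X])
    (E : Type) [Field E] [Algebra ℚ E] [g.IsSplittingField ℚ E] [FiniteDimensional ℚ E]
    (a b : ℕ) :
    ∃ q : ℚ, ((sg (List.ofFn fun i => U Q (θ i))).coeff a).coeff b = (q : ℂ) := by
  classical
  have hE : IsGalois ℚ E := IsGalois.of_separable_splitting_field hg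
  let φ : E →ₐ[ℚ] ℂ := IsAlgClosed.lift
  have hsp : (g.map (algebraMap ℚ E)).Splits := IsSplittingField.splits E g
  have hg0 : g.map (algebraMap ℚ E) ≠ 0 := Polynomial.map_ne_zero hg.ne_zero
  have h2 : g.map (algebraMap ℚ ℂ) = (g.map (algebraMap ℚ E)).map φ.toRingHom := by
    rw [Polynomial.map_map]
    congr 1
    exact (φ.comp_algebraMap).symm
  have hlift : ∀ i, ∃ e : E, φ e = θ i := by
    intro i
    have h3 : θ i ∈ (g.map (algebraMap ℚ ℂ)).roots := by
      rw [mem_roots (Polynomial.map_ne_zero hg.ne_zero), IsRoot.def, eval_map_algebraMap]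
      exact h0 i
    rw [h2, hsp.roots_map, Multiset.mem_map] at h3
    obtain ⟨e, _, he⟩ := h3
    exact ⟨e, he⟩
  choose t ht using hlift
  have htinj : Function.Injective t := fun i j hij => hθ (by rw [← ht i, ← ht j, hij])
  have ht0 : ∀ i, aeval (t i) g = 0 := by
    intro i
    apply φ.toRingHom.injective
    have := aeval_algHom_apply φ (t i) g
    change φ _ = φ 0
    rw [← this, ht, h0, map_zero]
  have hroots : (g.map (algebraMap ℚ E)).roots.toFinset = Finset.univ.image t := by
    symm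
    apply Finset.eq_of_subset_of_card_le
    · intro z hz
      obtain ⟨i, _, rfl⟩ := Finset.mem_image.1 hz
      rw [Multiset.mem_toFinset, mem_roots hg0, IsRoot.def, eval_map_algebraMap]
      exact ht0 i
    · rw [Finset.card_image_of_injective _ htinj, Finset.card_univ, Fintype.card_fin]
      calc (g.map (algebraMap ℚ E)).roots.toFinset.card
          ≤ Multiset.card (g.map (algebraMap ℚ E)).roots := Multiset.toFinset_card_le _
        _ ≤ (g.map (algebraMap ℚ E)).natDegree := card_roots' _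
        _ = d := by rw [natDegree_map, hd]
  have hperm : ∀ σ : E ≃ₐ[ℚ] E, ∃ π : Equiv.Perm (Fin d), ∀ i, t (π i) = σ (t i) := by
    intro σ
    have h3 : ∀ i, ∃ j, t j = σ (t i) := by
      intro i
      have h4 : σ (t i) ∈ (g.map (algebraMap ℚ E)).roots.toFinset := by
        rw [Multiset.mem_toFinset, mem_roots hg0, IsRoot.def, eval_map_algebraMap]
        have h5 : aeval (σ (t i)) g = σ (aeval (t i) g) := aeval_algHom_apply σ.toAlgHom (t i) g
        rw [h5, ht0, map_zero]
      rw [hroots] at h4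
      obtain ⟨j, _, hj⟩ := Finset.mem_image.1 h4
      exact ⟨j, hj⟩
    choose p hp using h3
    have hpi : Function.Injective p := by
      intro i j hij
      apply htinj
      apply σ.injective
      rw [← hp, ← hp, hij]
    exact ⟨Equiv.ofBijective p (Finite.injective_iff_bijective.1 hpi), hp⟩
  have hfix : ∀ σ : E ≃ₐ[ℚ] E,
      σ (((sg (List.ofFn fun i => U Q (t i))).coeff a).coeff b) =
        ((sg (List.ofFn fun i => U Q (t i))).coeff a).coeff b := by
    intro σ
    obtain ⟨π, hπ⟩ := hperm σ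
    have h3 := sg_map_U h Q σ.toAlgHom t
    have h4 : sg (List.ofFn fun i => U Q (σ.toAlgHom (t i))) = sg (List.ofFn fun i => U Q (t i)) := by
      have h5 : (fun i => U Q (σ.toAlgHom (t i))) = (fun i => U Q (t i)) ∘ π := by
        funext i
        change U Q (σ (t i)) = U Q (t (π i))
        rw [hπ]
      rw [h5]
      exact h.2.2.2 E[X] _ _ (Equiv.Perm.ofFn_comp_perm π _)
    rw [h4] at h3
    have h6 := congrArg (fun P : E[X][X] => (P.coeff a).coeff b) h3
    simp only [coeff_map, coe_mapRingHom] at h6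
    exact h6
  obtain ⟨q, hq⟩ := (IsGalois.mem_range_algebraMap_iff_fixed _).2 hfix
  refine ⟨q, ?_⟩
  have h7 := sg_map_U h Q φ t
  simp only [ht] at h7
  rw [← h7]
  simp only [coeff_map, coe_mapRingHom]
  change φ _ = _
  rw [← hq]
  simp

lemma rat (h : StSG) (d : ℕ) (g : ℚ[X]) (hg : g.Separable) (hd : g.natDegree = d)
    (θ : Fin d → ℂ) (hθ : Function.Injective θ) (h0 : ∀ i, aeval (θ i) g = 0) (Q : ℚ[X])
    (a b : ℕ) :
    ∃ q : ℚ, ((sg (List.ofFn fun i => U Q (θ i))).coeff a).coeff b = (q : ℂ) :=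
  @rat_aux h d g hg hd θ hθ h0 Q g.SplittingField _ _ (IsSplittingField.splittingField g) _ a b

lemma integ (h : StSG) (d : ℕ) (θ : Fin d → ℂ) (Q : ℚ[X])
    (h1 : ∀ i, IsIntegral ℤ (aeval (θ i) Q)) (h2 : ∀ i, IsIntegral ℤ (aeval (θ i) Q * θ i))
    (a b : ℕ) : IsIntegral ℤ (((sg (List.ofFn fun i => U Q (θ i))).coeff a).coeff b) := by
  let O := integralClosure ℤ ℂ
  let V : Fin d → O[X] := fun i => C (⟨aeval (θ i) Q, h1 i⟩ : O) * X - C (⟨aeval (θ i) Q * θ i, h2 i⟩ : O)
  have h3 := h.1 O[X] ℂ[X] (mapRingHom (algebraMap O ℂ)) (List.ofFn V)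
  have h4 : (List.ofFn V).map (mapRingHom (algebraMap O ℂ)) = List.ofFn fun i => U Q (θ i) := by
    rw [List.map_ofFn]
    congr 1
    funext i
    simp only [Function.comp, coe_mapRingHom, V, U]
    rw [Polynomial.map_sub, Polynomial.map_mul, Polynomial.map_C, Polynomial.map_C,
      Polynomial.map_X]
    change C (aeval (θ i) Q) * X - C (aeval (θ i) Q * θ i) = _
    rw [C_mul]
    ring
  rw [h4] at h3
  rw [← h3]
  simp only [coeff_map, coe_mapRingHom]
  exact (((sg (List.ofFn V)).coeff a).coeff b).2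

theorem done : StSG → StINT := by
  intro h d g hd hg θ hθ h0 Q h1 h2
  have hU : (sg (List.ofFn fun i => C (aeval (θ i) Q) * (X - C (θ i)))) =
      sg (List.ofFn fun i => U Q (θ i)) := rfl
  rw [hU]
  have hcoef : ∀ a b, ∃ z : ℤ, ((sg (List.ofFn fun i => U Q (θ i))).coeff a).coeff b = (z : ℂ) := by
    intro a b
    obtain ⟨q, hq⟩ := rat h d (g.map (Int.castRingHom ℚ)) hg
      (by rw [natDegree_map_eq_of_injective (Int.castRingHom ℚ).injective_int, hd]) θ hθ
      (by
        intro i
        rw [← h0 i]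
        rw [aeval_def, eval₂_map, aeval_def]
        congr 1) Q a b
    have h3 := integ h d θ Q h1 h2 a b
    rw [hq] at h3
    have h4 : IsIntegral ℤ q := by
      have h5 : IsIntegral ℤ (algebraMap ℚ ℂ q) := by simpa using h3
      exact (isIntegral_algebraMap_iff (algebraMap ℚ ℂ).injective).1 h5
    obtain ⟨z, hz⟩ := IsIntegrallyClosed.isIntegral_iff.1 h4
    refine ⟨z, ?_⟩
    rw [hq, ← hz]
    simp
  have hl : sg (List.ofFn fun i => U Q (θ i)) ∈ lifts (mapRingHom (Int.castRingHom ℂ)) := by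
    rw [lifts_iff_coeff_lifts]
    intro a
    have h5 : (sg (List.ofFn fun i => U Q (θ i))).coeff a ∈ lifts (Int.castRingHom ℂ) := by
      rw [lifts_iff_coeff_lifts]
      intro b
      obtain ⟨z, hz⟩ := hcoef a b
      exact ⟨z, by rw [hz]; simp⟩
    obtain ⟨p, hp⟩ := (mem_lifts _).1 h5
    exact ⟨p, hp⟩
  obtain ⟨F, hF⟩ := (mem_lifts _).1 hl
  have hinj : Function.Injective (mapRingHom (Int.castRingHom ℂ)) := by
    rw [coe_mapRingHom]
    exact Polynomial.map_injective _ (Int.castRingHom ℂ).injective_int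
  obtain ⟨h6, h7⟩ := h.2.1 ℂ[X] (List.ofFn fun i => U Q (θ i))
  refine ⟨F, ?_, ?_, hF⟩
  · apply Polynomial.monic_of_injective hinj
    rw [hF]
    exact h6
  · rw [← natDegree_map_eq_of_injective hinj F, hF, h7, List.length_ofFn]

end Pool.Agent.Y525.FC
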